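import Pool.Agent.W586.GZ.Stm

/-!
Project GZ, part JAMES (helper797): averages of large norm.
-/

set_option autoImplicit false
open Filter Topology

namespace Pool.Agent.W797.GZ.JAMES

open Pool.Agent.W586.GZ

/-- iterated averages -/
noncomputable def Av (N : ℕ) (z : ℕ → ℕ → ℝ) (h i : ℕ) : ℕ → ℝ :=
  fun n => ((N : ℝ) ^ h)⁻¹ * ∑ l ∈ Finset.range (N ^ h), z (i * N ^ h + l) n

theorem sum_range_mul' (f : ℕ → ℝ) (a b : ℕ) :
    ∑ l ∈ Finset.range (a * b), f l = ∑ r ∈ Finset.range a, ∑ l ∈ Finset.range b, f (r * b + l) := by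
  induction a with
  | zero => simp
  | succ a ih => rw [Nat.succ_mul, Finset.sum_range_add, ih, Finset.sum_range_succ]

theorem Av_succ (N : ℕ) (z : ℕ → ℕ → ℝ) (h i n : ℕ) :
    Av N z (h + 1) i n = (∑ r ∈ Finset.range N, Av N z h (i * N + r) n) / N := by
  unfold Av
  rw [pow_succ' N h, sum_range_mul', ← Finset.mul_sum, pow_succ' (N : ℝ) h, mul_inv, div_eq_inv_mul, mul_assoc]
  congr 2
  apply Finset.sum_congr rfl
  intro r _
  apply Finset.sum_congr rfl
  intro l _
  congr 1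
  ring

theorem Av_zero (N : ℕ) (z : ℕ → ℕ → ℝ) (i n : ℕ) : Av N z 0 i n = z i n := by
  unfold Av
  simp

/-- supports -/
theorem Av_supp (N : ℕ) (z : ℕ → ℕ → ℝ) (h i n : ℕ) (hn : Av N z h i n ≠ 0) :
    ∃ l, l < N ^ h ∧ z (i * N ^ h + l) n ≠ 0 := by
  unfold Av at hn
  have h1 : ∑ l ∈ Finset.range (N ^ h), z (i * N ^ h + l) n ≠ 0 := fun h0 => hn (by rw [h0, mul_zero])
  obtain ⟨l, hl, hne⟩ := Finset.exists_ne_zero_of_sum_ne_zero h1
  exact ⟨l, Finset.mem_range.mp hl, hne⟩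

/-- averages of bounded vectors -/
theorem Av_le (P : Par) (N : ℕ) (hN : 1 ≤ N) (z : ℕ → ℕ → ℝ) (h i : ℕ) (c : ℝ)
    (hc : ∀ r, r < N → NB (WW P) (Av N z h (i * N + r)) c) : NB (WW P) (Av N z (h + 1) i) c := by
  intro f hf
  have hN0 : (0 : ℝ) < N := by exact_mod_cast hN
  have h1 : ev f (Av N z (h + 1) i) = (N : ℝ)⁻¹ * ev f (fun n => ∑ r ∈ Finset.range N, Av N z h (i * N + r) n) := by
    have h2 := ev_smul_right f (N : ℝ)⁻¹ (fun n => ∑ r ∈ Finset.range N, Av N z h (i * N + r) n)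
    rw [abs_of_pos (inv_pos.mpr hN0)] at h2
    rw [← h2]
    congr 1
    funext n
    rw [Av_succ, div_eq_inv_mul]
  have h3 : ev f (fun n => ∑ r ∈ Finset.range N, Av N z h (i * N + r) n) ≤ N * c := by
    refine (ev_sum_right _ f ((WW_idl P).nn f hf) _).trans ?_
    refine (Finset.sum_le_sum (fun r hr => hc r (Finset.mem_range.mp hr) f hf)).trans ?_
    rw [Finset.sum_const, Finset.card_range, nsmul_eq_mul]
  rw [h1, inv_mul_le_iff₀ hN0]
  exact h3

/-- lower estimate of the averages -/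
theorem Av_low (P : Par) (j N : ℕ) (hN : 1 ≤ N) (z : ℕ → ℕ → ℝ) (h i : ℕ) (hd : N ^ h ≤ P.n (2 * j))
    (hs : ∀ a b, a < b → VLt (z a) (z b)) (hlo : ∀ a, ∃ f ∈ WW P, 1 / 2 ≤ ev f (z a)) :
    ∃ F ∈ WW P, 1 / (2 * (P.m (2 * j) : ℝ)) ≤ ev F (Av N z h i) := by
  have hN0 : (0 : ℝ) < (N : ℝ) ^ h := by
    have : (0 : ℝ) < N := by exact_mod_cast hN
    positivity
  choose f hf hfe using hlo
  choose w hw using hf
  obtain ⟨F, hF, -, hFe⟩ := lower_est P j (N ^ h) hd (fun l => z (i * N ^ h + l))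
    (fun l => w (i * N ^ h + l)) (fun l => f (i * N ^ h + l)) (fun _ => 1 / 2)
    (fun l _ => hw _) (fun l _ => hfe _) (fun a b hab _ => hs _ _ (by omega))
  refine ⟨F, ⟨_, hF⟩, ?_⟩
  have h1 : ev F (Av N z h i) = ((N : ℝ) ^ h)⁻¹ *
      ev F (fun n => ∑ l ∈ Finset.range (N ^ h), z (i * N ^ h + l) n) := by
    have h2 := ev_smul_right F ((N : ℝ) ^ h)⁻¹ (fun n => ∑ l ∈ Finset.range (N ^ h), z (i * N ^ h + l) n)
    rw [abs_of_pos (inv_pos.mpr hN0)] at h2
    rw [← h2]
    rfl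
  rw [Finset.sum_const, Finset.card_range, nsmul_eq_mul] at hFe
  push_cast at hFe
  rw [h1]
  have hm := P.mpos' (2 * j)
  calc 1 / (2 * (P.m (2 * j) : ℝ)) = ((N : ℝ) ^ h)⁻¹ * ((N : ℝ) ^ h * (1 / 2) / P.m (2 * j)) := by
        field_simp
    _ ≤ _ := by
        apply mul_le_mul_of_nonneg_left hFe (inv_nonneg.mpr hN0.le)

theorem BS.supp_ge {P : Par} {x : ℕ → ℕ → ℝ} (hx : BS P x) : ∀ k n, x k n ≠ 0 → k ≤ n := by
  intro k
  induction k with
  | zero => intro n _; exact Nat.zero_le n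
  | succ k ih =>
    intro n hn
    have hex : ∃ p, x k p ≠ 0 := by
      by_contra hno
      push Not at hno
      obtain ⟨f, hf, h1⟩ := hx.lo k
      have h0 : ev f (x k) = 0 := by
        have : x k = fun _ => 0 := funext hno
        rw [this, ev_zero_right]
      rw [h0] at h1
      norm_num at h1
    obtain ⟨p, hp⟩ := hex
    have h1 := ih p hp
    have h2 := hx.succ k (k + 1) (Nat.lt_succ_self k) p n hp hn
    omega

theorem main : S_JAMES := by
  intro P N hN
  set j : ℕ := N + 1 with hj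
  set M : ℕ := P.m (2 * j) with hM
  set s : ℕ := 2 * M with hs
  have hMpos : (0 : ℝ) < M := P.mpos' (2 * j)
  -- sizes
  have hNn : N ≤ P.n (2 * N + 1) + 1 := by
    have : 2 * N + 1 ≤ P.n (2 * N + 1) := P.nlt.id_le _
    omega
  have hNs : N ^ s ≤ P.n (2 * j) := by
    have h1 := P.nS (2 * N + 1)
    have e : 2 * N + 1 + 1 = 2 * j := by omega
    rw [e] at h1
    have h2 : N ^ s ≤ (P.n (2 * N + 1) + 1) ^ (3 * P.m (2 * j) + 1) :=
      (Nat.pow_le_pow_left hNn s).trans (Nat.pow_le_pow_right (by omega) (by omega))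
    have h3 : 1 ≤ P.m (2 * j) ^ 3 := Nat.one_le_pow _ _ (by have := P.mpos (2 * j); omega)
    calc N ^ s ≤ (P.n (2 * N + 1) + 1) ^ (3 * P.m (2 * j) + 1) := h2
      _ ≤ P.m (2 * j) ^ 3 * (P.n (2 * N + 1) + 1) ^ (3 * P.m (2 * j) + 1) := Nat.le_mul_of_pos_left _ h3
      _ ≤ P.n (2 * j) := h1
  have hNh : ∀ h, h ≤ s → N ^ h ≤ P.n (2 * j) := fun h hh =>
    (Nat.pow_le_pow_right hN hh).trans hNs
  refine ⟨4 * M, by positivity, ?_⟩
  intro x hx k0
  set k1 : ℕ := max k0 N with hk1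
  have hk0 : k0 ≤ k1 := le_max_left _ _
  have hkN : N ≤ k1 := le_max_right _ _
  set z : ℕ → ℕ → ℝ := fun l => x (k1 + l) with hz
  have hzs : ∀ a b, a < b → VLt (z a) (z b) := fun a b hab => hx.succ _ _ (by omega)
  have hzl : ∀ a, ∃ f ∈ WW P, 1 / 2 ≤ ev f (z a) := fun a => hx.lo _
  have hzn : ∀ a, NB (WW P) (z a) 1 := fun a => hx.nb _
  -- the key step
  have key : ∃ h i : ℕ, ∃ c : ℝ, h < s ∧ 0 < c ∧ (∀ r, r < N → NB (WW P) (Av N z h (i * N + r)) c) ∧
      ¬ NB (WW P) (Av N z (h + 1) i) (c / 2) := by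
    by_contra hno
    push Not at hno
    have hall : ∀ h, h ≤ s → ∀ i, NB (WW P) (Av N z h i) ((1 / 2 : ℝ) ^ h) := by
      intro h
      induction h with
      | zero =>
        intro _ i
        have : Av N z 0 i = z i := funext (Av_zero N z i)
        rw [this, pow_zero]
        exact hzn i
      | succ h ih =>
        intro hh i
        have h1 := hno h i ((1 / 2 : ℝ) ^ h) (by omega) (by positivity)
          (fun r _ => ih (by omega) _)
        have e : (1 / 2 : ℝ) ^ h / 2 = (1 / 2 : ℝ) ^ (h + 1) := by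
          rw [pow_succ]; ring
        rwa [e] at h1
    obtain ⟨F, hF, hFe⟩ := Av_low P j N hN z s 0 hNs hzs hzl
    have h1 := hall s le_rfl 0 F hF
    have h2 : (2 * (M : ℝ)) < 2 ^ s := by
      have h3 : s < 2 ^ s := Nat.lt_two_pow_self
      have h4 : ((s : ℕ) : ℝ) < ((2 ^ s : ℕ) : ℝ) := by exact_mod_cast h3
      rw [hs] at h4 ⊢
      push_cast at h4
      exact h4
    have h3 : (1 / 2 : ℝ) ^ s < 1 / (2 * (M : ℝ)) := by
      rw [one_div_pow]
      exact one_div_lt_one_div_of_lt (by positivity) h2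
    linarith
  obtain ⟨h, i, c, hh, hc, hcN, hcn⟩ := key
  have hA := Av_le P N hN z h i c hcN
  obtain ⟨F, hF, hFe⟩ := Av_low P j N hN z (h + 1) i (hNh _ (by omega)) hzs hzl
  have hcM : 1 / (2 * (M : ℝ)) ≤ c := hFe.trans (hA F hF)
  have h2c : 2 / c ≤ 4 * M := by
    rw [div_le_iff₀ hc]
    have : 1 / (2 * (M : ℝ)) * (4 * M) = 2 := by field_simp; norm_num
    nlinarith
  -- the vector
  set D : ℕ := N ^ (h + 1) with hD
  have hD1 : 1 ≤ D := Nat.one_le_pow _ _ hN
  set p : ℕ := k1 + i * D with hp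
  set co : ℝ := 2 / c * ((N : ℝ) ^ (h + 1))⁻¹ with hco
  have hNr : (1 : ℝ) ≤ (N : ℝ) ^ (h + 1) := by
    have : (1 : ℝ) ≤ N := by exact_mod_cast hN
    exact one_le_pow₀ this
  have hco0 : 0 ≤ co := by positivity
  have hcoB : co ≤ 4 * M := by
    have h1 : ((N : ℝ) ^ (h + 1))⁻¹ ≤ 1 := inv_le_one_of_one_le₀ hNr
    have h0 : 0 ≤ 2 / c := by positivity
    calc co ≤ 2 / c * 1 := mul_le_mul_of_nonneg_left h1 h0
      _ = 2 / c := mul_one _
      _ ≤ 4 * M := h2c
  set a : ℕ → ℝ := fun k => if p ≤ k ∧ k < p + D then co else 0 with ha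
  have hY : ∀ n, ∑ k ∈ Finset.range (p + D), a k * x k n = 2 / c * Av N z (h + 1) i n := by
    intro n
    rw [Finset.sum_range_add]
    have h1 : ∑ k ∈ Finset.range p, a k * x k n = 0 := by
      apply Finset.sum_eq_zero
      intro k hk
      have hk' := Finset.mem_range.mp hk
      have : a k = 0 := by
        rw [ha]
        exact if_neg (fun h => by omega)
      rw [this, zero_mul]
    have h2 : ∑ l ∈ Finset.range D, a (p + l) * x (p + l) n = co * ∑ l ∈ Finset.range D, x (p + l) n := by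
      rw [Finset.mul_sum]
      apply Finset.sum_congr rfl
      intro l hl
      have hl' := Finset.mem_range.mp hl
      have : a (p + l) = co := by
        rw [ha]
        exact if_pos ⟨by omega, by omega⟩
      rw [this]
    rw [h1, h2, zero_add, hco]
    unfold Av
    rw [← hD, mul_assoc]
    congr 2
    apply Finset.sum_congr rfl
    intro l _
    rw [hz]
    simp only
    congr 1
    omega
  have hYf : (fun n => ∑ k ∈ Finset.range (p + D), a k * x k n) = fun n => 2 / c * Av N z (h + 1) i n :=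
    funext hY
  have habs : |2 / c| = 2 / c := abs_of_pos (by positivity)
  refine ⟨a, p + D, ?_, ?_, ?_, ?_⟩
  · intro k hk
    have : p ≤ k ∧ k < p + D := by
      by_contra h0
      exact hk (if_neg h0)
    exact ⟨by omega, this.2⟩
  · intro k
    rw [ha]
    simp only
    split_ifs
    · exact ⟨hco0, hcoB⟩
    · exact ⟨le_rfl, by positivity⟩
  · rw [hYf]
    refine ⟨hN, ?_, fun r n => 2 / c * Av N z h (i * N + r) n, ?_, ?_, ?_⟩
    · intro n hn
      have h1 : Av N z (h + 1) i n ≠ 0 := right_ne_zero_of_mul hn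
      obtain ⟨l, _, hl⟩ := Av_supp N z (h + 1) i n h1
      have := BS.supp_ge hx _ _ hl
      omega
    · intro r hr
      have h1 := (hcN r hr).smul (2 / c)
      rw [habs] at h1
      have e : 2 / c * c = 2 := by field_simp
      rwa [e] at h1
    · intro r r' hrr' _ u v hu hv
      obtain ⟨l, hl, hlu⟩ := Av_supp N z h (i * N + r) u (right_ne_zero_of_mul hu)
      obtain ⟨l', hl', hlv⟩ := Av_supp N z h (i * N + r') v (right_ne_zero_of_mul hv)
      apply hzs _ _ _ u v hlu hlv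
      have h1 : (i * N + r + 1) * N ^ h ≤ (i * N + r') * N ^ h := Nat.mul_le_mul_right _ (by omega)
      have h2 : (i * N + r + 1) * N ^ h = (i * N + r) * N ^ h + N ^ h := by ring
      omega
    · intro n
      show 2 / c * Av N z (h + 1) i n = _
      rw [← Finset.mul_sum, Av_succ]
      ring
  · have h1 : ∃ f ∈ WW P, c / 2 < ev f (Av N z (h + 1) i) := by
      by_contra h0
      apply hcn
      intro f hf
      by_contra h3
      exact h0 ⟨f, hf, not_le.mp h3⟩
    obtain ⟨f, hf, hfe⟩ := h1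
    refine ⟨f, hf, ?_⟩
    rw [hYf, ev_smul_right, habs]
    have e : (1 : ℝ) = 2 / c * (c / 2) := by field_simp
    rw [e]
    apply mul_le_mul_of_nonneg_left hfe.le (by positivity)

end Pool.Agent.W797.GZ.JAMES
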